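import Pool.Agent.N139.MS.Stm

/-!
# The endomorphism of `E_3(R)` given by a corner endomorphism `ψ` (part EPHI of project MS)
-/

set_option autoImplicit false
set_option linter.all false

namespace Pool.Agent.N769.MS

open Pool.Agent.N44.NS Pool.Agent.N139.MS
open Matrix

section rel

variable {A : Type} [Ring A]

theorem el_rel {i j k : Fin 3} (hij : i ≠ j) (hjk : j ≠ k) (hik : i ≠ k) (a b : A) :
    el i j hij a * el j k hjk b = el j k hjk b * (el i j hij a * el i k hik (a * b)) := by
  apply Units.ext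
  change ((1 + Matrix.single i j a) * (1 + Matrix.single j k b) : Matrix (Fin 3) (Fin 3) A) =
    (1 + Matrix.single j k b) * ((1 + Matrix.single i j a) * (1 + Matrix.single i k (a * b)))
  have h1 : (Matrix.single i j a * Matrix.single j k b : Matrix (Fin 3) (Fin 3) A) =
      Matrix.single i k (a * b) := Matrix.single_mul_single_same ..
  have h2 : (Matrix.single j k b * Matrix.single i j a : Matrix (Fin 3) (Fin 3) A) = 0 :=
    Matrix.single_mul_single_of_ne _ _ _ _ hik.symm _
  have h3 : (Matrix.single i j a * Matrix.single i k (a * b) : Matrix (Fin 3) (Fin 3) A) = 0 :=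
    Matrix.single_mul_single_of_ne _ _ _ _ hij.symm _
  have h4 : (Matrix.single j k b * Matrix.single i k (a * b) : Matrix (Fin 3) (Fin 3) A) = 0 :=
    Matrix.single_mul_single_of_ne _ _ _ _ hik.symm _
  simp only [mul_add, add_mul, one_mul, mul_one, h1, h2, h3, h4, add_zero]
  abel

theorem el_comm1 {i j k : Fin 3} (hij : i ≠ j) (hik : i ≠ k) (a b : A) :
    el i k hik a * el i j hij b = el i j hij b * el i k hik a := by
  apply Units.ext
  change ((1 + Matrix.single i k a) * (1 + Matrix.single i j b) : Matrix (Fin 3) (Fin 3) A) =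
    (1 + Matrix.single i j b) * (1 + Matrix.single i k a)
  have h1 : (Matrix.single i k a * Matrix.single i j b : Matrix (Fin 3) (Fin 3) A) = 0 :=
    Matrix.single_mul_single_of_ne _ _ _ _ hik.symm _
  have h2 : (Matrix.single i j b * Matrix.single i k a : Matrix (Fin 3) (Fin 3) A) = 0 :=
    Matrix.single_mul_single_of_ne _ _ _ _ hij.symm _
  simp only [mul_add, add_mul, one_mul, mul_one, h1, h2, add_zero]
  abel

theorem el_comm2 {i j k : Fin 3} (hjk : j ≠ k) (hik : i ≠ k) (a b : A) :
    el i k hik a * el j k hjk b = el j k hjk b * el i k hik a := by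
  apply Units.ext
  change ((1 + Matrix.single i k a) * (1 + Matrix.single j k b) : Matrix (Fin 3) (Fin 3) A) =
    (1 + Matrix.single j k b) * (1 + Matrix.single i k a)
  have h1 : (Matrix.single i k a * Matrix.single j k b : Matrix (Fin 3) (Fin 3) A) = 0 :=
    Matrix.single_mul_single_of_ne _ _ _ _ hjk.symm _
  have h2 : (Matrix.single j k b * Matrix.single i k a : Matrix (Fin 3) (Fin 3) A) = 0 :=
    Matrix.single_mul_single_of_ne _ _ _ _ hik.symm _
  simp only [mul_add, add_mul, one_mul, mul_one, h1, h2, add_zero]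
  abel

/-- the elementary matrices as elements of `E_3(A)` -/
def eE (i j : Fin 3) (h : i ≠ j) (a : A) : E3 A :=
  ⟨el i j h a, Subgroup.subset_closure ⟨i, j, h, a, rfl⟩⟩

/-- the commutator -/
theorem eE_com {i j k : Fin 3} (hij : i ≠ j) (hjk : j ≠ k) (hik : i ≠ k) (a b : A) :
    eE i j hij a * eE j k hjk b * (eE i j hij a)⁻¹ * (eE j k hjk b)⁻¹ = eE i k hik (a * b) := by
  have h1 : eE i j hij a * eE j k hjk b = eE j k hjk b * (eE i j hij a * eE i k hik (a * b)) :=
    Subtype.ext (el_rel hij hjk hik a b)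
  have h2 : eE i j hij a * eE i k hik (a * b) = eE i k hik (a * b) * eE i j hij a :=
    Subtype.ext (el_comm1 hik hij a (a * b))
  have h3 : eE j k hjk b * eE i k hik (a * b) = eE i k hik (a * b) * eE j k hjk b :=
    Subtype.ext (el_comm2 hik hjk b (a * b))
  rw [h1, h2, mul_inv_eq_iff_eq_mul, mul_inv_eq_iff_eq_mul, ← mul_assoc, h3, mul_assoc]

theorem third (i j : Fin 3) : ∃ k : Fin 3, k ≠ i ∧ k ≠ j := by
  revert i j
  decide

/-- A subgroup of `E_3(A)` which contains the elementary matrices is everything. -/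
theorem eq_top {M : Subgroup (E3 A)} (h : ∀ (i j : Fin 3) (hij : i ≠ j) (a : A),
    eE i j hij a ∈ M) : M = ⊤ := by
  rw [eq_top_iff]
  rintro ⟨g, hg⟩ -
  have : ∀ g (hg : g ∈ E3 A), (⟨g, hg⟩ : E3 A) ∈ M := by
    intro g hg
    induction hg using Subgroup.closure_induction with
    | mem x hx =>
      obtain ⟨i, j, hij, a, rfl⟩ := hx
      exact h i j hij a
    | one => exact M.one_mem
    | mul x y hx hy h1 h2 => exact M.mul_mem h1 h2
    | inv x hx h1 => exact M.inv_mem h1
  exact this g hg

end rel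

section the

variable {R : Type} [Ring R] (ψ : R →ₙ+* R)

theorem map_mul' (A B : Matrix (Fin 3) (Fin 3) R) : (A * B).map ψ = A.map ψ * B.map ψ := by
  ext i j
  simp only [Matrix.map_apply, Matrix.mul_apply, map_sum, map_mul]

theorem map_add' (A B : Matrix (Fin 3) (Fin 3) R) : (A + B).map ψ = A.map ψ + B.map ψ := by
  ext i j
  simp only [Matrix.map_apply, Matrix.add_apply, map_add]

/-- `Θ(g) = 1 + ψ(g - 1)` -/
def Th : Matrix (Fin 3) (Fin 3) R →* Matrix (Fin 3) (Fin 3) R where
  toFun g := 1 + (g - 1).map ψ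
  map_one' := by
    rw [sub_self]
    ext i j
    simp
  map_mul' g h := by
    have e : g * h - 1 = (g - 1) + (h - 1) + (g - 1) * (h - 1) := by noncomm_ring
    rw [e, map_add', map_add', map_mul']
    noncomm_ring

theorem Th_el (i j : Fin 3) (h : i ≠ j) (r : R) :
    Units.map (Th ψ) (el i j h r) = el i j h (ψ r) := by
  apply Units.ext
  change 1 + ((1 + Matrix.single i j r) - 1).map ψ = 1 + Matrix.single i j (ψ r)
  rw [add_sub_cancel_left, Matrix.map_single]

theorem Th_mem (g : (Matrix (Fin 3) (Fin 3) R)ˣ) (hg : g ∈ E3 R) : Units.map (Th ψ) g ∈ E3 R := by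
  have : E3 R ≤ (E3 R).comap (Units.map (Th ψ)) := by
    rw [E3, Subgroup.closure_le]
    rintro x ⟨i, j, h, a, rfl⟩
    rw [SetLike.mem_coe, Subgroup.mem_comap, Th_el]
    exact Subgroup.subset_closure ⟨i, j, h, ψ a, rfl⟩
  exact this hg

/-- the endomorphism of `E_3(R)` -/
def ph : E3 R →* E3 R :=
  ((Units.map (Th ψ)).comp (E3 R).subtype).codRestrict (E3 R) fun g => Th_mem ψ g.1 g.2

theorem ph_eE (i j : Fin 3) (h : i ≠ j) (r : R) : ph ψ (eE i j h r) = eE i j h (ψ r) :=
  Subtype.ext (Th_el ψ i j h r)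

end the

/-- **EPHI**. -/
theorem t_EPHI : S_EPHI := by
  intro R _ ψ p hp h1 h2 ⟨a₀, b₀, hab⟩
  refine ⟨ph ψ, ?_, ?_⟩
  · intro M hM H1 H2
    -- the elements `e_{ij}(p)` centralise the image
    have hcen : ∀ (i j : Fin 3) (hij : i ≠ j) (k : E3 R),
        eE i j hij p * ph ψ k = ph ψ k * eE i j hij p := by
      intro i j hij k
      apply Subtype.ext
      apply Units.ext
      change (1 + Matrix.single i j p) * (1 + (k.1.val - 1).map ψ) =
        (1 + (k.1.val - 1).map ψ) * (1 + Matrix.single i j p)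
      have e1 : Matrix.single i j p * (k.1.val - 1).map ψ = 0 := by
        ext a b
        by_cases hia : a = i
        · subst hia
          rw [Matrix.single_mul_apply_same, Matrix.map_apply, h1]
          rfl
        · rw [Matrix.single_mul_apply_of_ne _ _ _ _ _ hia]
          rfl
      have e2 : (k.1.val - 1).map ψ * Matrix.single i j p = 0 := by
        ext a b
        by_cases hjb : b = j
        · subst hjb
          rw [Matrix.mul_single_apply_same, Matrix.map_apply, h2]
          rfl
        · rw [Matrix.mul_single_apply_of_ne _ _ _ _ _ hjb]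
          rfl
      rw [add_mul, mul_add, mul_add, add_mul, e1, mul_add, mul_add, e2]
      simp only [mul_one, one_mul, add_zero]
      abel
    have s1 : ∀ (l j : Fin 3) (hlj : l ≠ j) (c : R), eE l j hlj (c * p) ∈ M := by
      intro l j hlj c
      obtain ⟨i, hil, hij⟩ := third l j
      rw [← eE_com hil.symm hij hlj c p]
      exact H1 _ _ (hcen i j hij)
    have s2 : ∀ (l m : Fin 3) (hlm : l ≠ m) (c d : R), eE l m hlm (c * p * d) ∈ M := by
      intro l m hlm c d
      obtain ⟨j, hjl, hjm⟩ := third l m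
      rw [← eE_com hjl.symm hjm hlm (c * p) d, mul_assoc, mul_assoc]
      refine M.mul_mem (s1 _ _ _ _) ?_
      rw [← mul_assoc]
      exact hM.conj_mem _ (M.inv_mem (s1 _ _ _ _)) _
    apply eq_top
    intro i j hij r
    apply H2
    rw [ph_eE]
    have e : ψ r = a₀ * p * (b₀ * ψ r) := by
      conv_lhs => rw [← one_mul r, map_mul, hab]
      rw [mul_assoc]
    rw [e]
    exact s2 _ _ _ _ _
  · intro i j h r g hg
    have : g = eE i j h r := Subtype.ext hg
    rw [this, ph_eE]
    rfl

end Pool.Agent.N769.MS
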