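import Pool.Agent.N769.MS.EPHI

/-!
# The permutation data for `E_3(R)` (part PERM of project MS)
-/

set_option autoImplicit false
set_option linter.all false

namespace Pool.Agent.N769.MS

open Pool.Agent.N44.NS Pool.Agent.N139.MS
open Matrix Filter Topology

section act

variable {R : Type} [Ring R] {V : Type} [AddCommGroup V] [Module (ZMod 257) V]
  (π : R →+* Module.End (ZMod 257) V)

/-- the action of the matrices on `V ^ 3` -/
def rho : Matrix (Fin 3) (Fin 3) R →* Function.End (Fin 3 → V) where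
  toFun M := fun v i => ∑ j, π (M i j) (v j)
  map_one' := by
    funext v i
    rw [Finset.sum_eq_single i]
    · simp
      rfl
    · intro j _ hj
      rw [Matrix.one_apply_ne hj.symm, map_zero, LinearMap.zero_apply]
    · intro h
      exact absurd (Finset.mem_univ _) h
  map_mul' M N := by
    funext v i
    change ∑ j, π ((M * N) i j) (v j) = ∑ j, π (M i j) (∑ k, π (N j k) (v k))
    simp only [Matrix.mul_apply, map_sum, map_mul, LinearMap.sum_apply, Module.End.mul_apply]
    exact Finset.sum_comm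

/-- the action of the group -/
def u0 : E3 R →* Equiv.Perm (Fin 3 → V) :=
  (Equiv.Perm.equivUnitsEnd.symm.toMonoidHom).comp ((Units.map (rho π)).comp (E3 R).subtype)

theorem u0_apply (k : E3 R) (v : Fin 3 → V) (i : Fin 3) :
    u0 π k v i = ∑ j, π (k.val.val i j) (v j) := rfl

theorem u0_el (k : E3 R) (r : R) (hk : k.val = el 0 1 (by decide) r) (v : Fin 3 → V)
    (h : u0 π k v = v) : π r (v 1) = 0 := by
  have h0 := congrFun h 0
  rw [u0_apply, hk, Fin.sum_univ_three] at h0
  have e0 : (el (0 : Fin 3) 1 (by decide) r).val 0 0 = 1 := by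
    simp [el, Matrix.single]
  have e1 : (el (0 : Fin 3) 1 (by decide) r).val 0 1 = r := by
    simp [el, Matrix.single]
  have e2 : (el (0 : Fin 3) 1 (by decide) r).val 0 2 = 0 := by
    simp [el, Matrix.single]
  rw [e0, e1, e2, map_one, map_zero, LinearMap.zero_apply, add_zero, Module.End.one_apply] at h0
  exact add_eq_left.1 h0

variable (φ : E3 R →* E3 R) (n : ℕ)

/-- the action on `n + 1` copies, twisted by the powers of `φ` -/
def uZ : E3 R →* Equiv.Perm (Fin (n + 1) × (Fin 3 → V)) where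
  toFun k := Equiv.prodShear (Equiv.refl _) fun i => u0 π (φ^[(i : ℕ)] k)
  map_one' := by
    ext1 z
    change (z.1, u0 π (φ^[(z.1 : ℕ)] 1) z.2) = z
    rw [iterate_map_one, map_one]
    rfl
  map_mul' k l := by
    ext1 z
    change (z.1, u0 π (φ^[(z.1 : ℕ)] (k * l)) z.2) =
      (z.1, u0 π (φ^[(z.1 : ℕ)] k) (u0 π (φ^[(z.1 : ℕ)] l) z.2))
    rw [iterate_map_mul, map_mul]
    rfl

/-- the shift -/
def TZ (V : Type) (n : ℕ) : Equiv.Perm (Fin (n + 1) × (Fin 3 → V)) :=
  Equiv.prodCongr (finRotate (n + 1)) (Equiv.refl _)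

theorem TZ_tw (k : E3 R) (z : Fin (n + 1) × (Fin 3 → V)) (hz : z.1 ≠ Fin.last n) :
    ((TZ V n)⁻¹ * uZ π φ n k * TZ V n) z = uZ π φ n (φ k) z := by
  rw [mul_assoc, Equiv.Perm.mul_apply, Equiv.Perm.inv_eq_iff_eq]
  change (finRotate (n + 1) z.1, u0 π (φ^[(finRotate (n + 1) z.1 : Fin (n + 1)).val] k) z.2) =
    (finRotate (n + 1) z.1, u0 π (φ^[(z.1 : ℕ)] (φ k)) z.2)
  have e : (finRotate (n + 1) z.1 : Fin (n + 1)).val = (z.1 : ℕ) + 1 := by
    rw [coe_finRotate_of_ne_last hz]
  rw [e, Function.iterate_succ_apply]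

theorem fix_bound [Finite V] (k₀ : E3 R) (r : ℕ → R)
    (hk : ∀ i, (φ^[i] k₀).val = el 0 1 (by decide) (r i)) (hr : ∀ i, i ≤ n → π (r i) ≠ 0) :
    2 * Nat.card {z : Fin (n + 1) × (Fin 3 → V) // uZ π φ n k₀ z = z} ≤
      Nat.card (Fin (n + 1) × (Fin 3 → V)) := by
  classical
  have hw : ∀ i : Fin (n + 1), ∃ w : V, π (r i) w ≠ 0 := by
    intro i
    by_contra hcon
    push Not at hcon
    exact hr i (by have := i.2; omega) (LinearMap.ext hcon)
  choose w hw using hw
  have hfix : ∀ z : Fin (n + 1) × (Fin 3 → V), uZ π φ n k₀ z = z → π (r z.1) (z.2 1) = 0 := by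
    intro z hz
    have h2 : u0 π (φ^[(z.1 : ℕ)] k₀) z.2 = z.2 := congrArg Prod.snd hz
    exact u0_el π _ _ (hk z.1) _ h2
  let s : Fin (n + 1) × (Fin 3 → V) → Fin (n + 1) × (Fin 3 → V) :=
    fun z => (z.1, z.2 + Pi.single 1 (w z.1))
  have hs : Function.Injective s := by
    rintro ⟨i, x⟩ ⟨j, y⟩ h
    have h1 : i = j := congrArg Prod.fst h
    subst h1
    have h2 : x + Pi.single 1 (w i) = y + Pi.single 1 (w i) := congrArg Prod.snd h
    rw [add_right_cancel h2]
  have hc : ∀ z, uZ π φ n k₀ z = z → ¬ uZ π φ n k₀ (s z) = s z := by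
    intro z hz hsz
    have h1 := hfix z hz
    have h2 := hfix _ hsz
    have h3 : (s z).2 1 = z.2 1 + w z.1 := by simp [s]
    have h4 : (s z).1 = z.1 := rfl
    rw [h3, h4, map_add, h1, zero_add] at h2
    exact hw _ h2
  have hle : Nat.card {z : Fin (n + 1) × (Fin 3 → V) // uZ π φ n k₀ z = z} ≤
      Nat.card {z : Fin (n + 1) × (Fin 3 → V) // ¬ uZ π φ n k₀ z = z} :=
    Nat.card_le_card_of_injective (fun z => ⟨s z.1, hc z.1 z.2⟩) (by
      intro a b h
      exact Subtype.ext (hs (congrArg Subtype.val h)))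
  have hsum : Nat.card {z : Fin (n + 1) × (Fin 3 → V) // uZ π φ n k₀ z = z} +
      Nat.card {z : Fin (n + 1) × (Fin 3 → V) // ¬ uZ π φ n k₀ z = z} =
      Nat.card (Fin (n + 1) × (Fin 3 → V)) := by
    rw [← Nat.card_sum]
    exact Nat.card_congr (Equiv.sumCompl _)
  omega

end act

theorem card_ne {Z W : Type} (e : Z ≃ W) (a b : Equiv.Perm Z) :
    Nat.card {z : W // e.permCongrHom a z ≠ e.permCongrHom b z} =
      Nat.card {z : Z // a z ≠ b z} := by
  refine Nat.card_congr (e.symm.subtypeEquiv fun z => ?_)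
  change e (a (e.symm z)) ≠ e (b (e.symm z)) ↔ _
  rw [Ne, e.apply_eq_iff_eq]

theorem card_fix {Z W : Type} (e : Z ≃ W) (a : Equiv.Perm Z) :
    Nat.card {z : W // e.permCongrHom a z = z} = Nat.card {z : Z // a z = z} := by
  refine Nat.card_congr (e.symm.subtypeEquiv fun z => ?_)
  change e (a (e.symm z)) = z ↔ _
  rw [← e.apply_eq_iff_eq (x := a (e.symm z)), e.apply_symm_apply]

/-- **PERM**. -/
theorem t_PERM : S_PERM := by
  intro R _ ψ L _ π φ hφ hπ
  have hfin : ∀ n, Finite (Fin (n + 1) × (Fin 3 → (L n → ZMod 257))) := fun n => inferInstance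
  let m : ℕ → ℕ := fun n => Nat.card (Fin (n + 1) × (Fin 3 → (L n → ZMod 257)))
  let e : ∀ n, (Fin (n + 1) × (Fin 3 → (L n → ZMod 257))) ≃ Fin (m n) :=
    fun n => Finite.equivFin _
  have hm : ∀ n, m n = (n + 1) * Nat.card (Fin 3 → (L n → ZMod 257)) := by
    intro n
    simp only [m]
    rw [Nat.card_prod, Nat.card_fin]
  refine ⟨m, fun n => (e n).permCongrHom.toMonoidHom.comp (uZ (π n) φ n),
    fun n => (e n).permCongrHom (TZ (L n → ZMod 257) n), eE 0 1 (by decide) 1, ?_, ?_, ?_⟩
  · intro n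
    exact Nat.card_pos
  · intro k
    have hb : ∀ n : ℕ, (Nat.card {z : Fin (m n) //
        (((e n).permCongrHom (TZ (L n → ZMod 257) n))⁻¹ *
          ((e n).permCongrHom.toMonoidHom.comp (uZ (π n) φ n)) k *
          (e n).permCongrHom (TZ (L n → ZMod 257) n)) z ≠
        ((e n).permCongrHom.toMonoidHom.comp (uZ (π n) φ n)) (φ k) z} : ℝ) / m n ≤
        1 / ((n : ℝ) + 1) := by
      intro n
      have e1 : (((e n).permCongrHom (TZ (L n → ZMod 257) n))⁻¹ *
          ((e n).permCongrHom.toMonoidHom.comp (uZ (π n) φ n)) k *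
          (e n).permCongrHom (TZ (L n → ZMod 257) n)) =
          (e n).permCongrHom ((TZ (L n → ZMod 257) n)⁻¹ * uZ (π n) φ n k *
            TZ (L n → ZMod 257) n) := by
        rw [map_mul, map_mul, map_inv]
        rfl
      have e2 : ((e n).permCongrHom.toMonoidHom.comp (uZ (π n) φ n)) (φ k) =
          (e n).permCongrHom (uZ (π n) φ n (φ k)) := rfl
      rw [e1, e2, card_ne]
      have hle : Nat.card {z : Fin (n + 1) × (Fin 3 → (L n → ZMod 257)) //
          ((TZ (L n → ZMod 257) n)⁻¹ * uZ (π n) φ n k * TZ (L n → ZMod 257) n) z ≠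
            uZ (π n) φ n (φ k) z} ≤ Nat.card (Fin 3 → (L n → ZMod 257)) := by
        refine Nat.card_le_card_of_injective (fun z => z.1.2) ?_
        rintro ⟨⟨i, x⟩, h⟩ ⟨⟨j, y⟩, h'⟩ hxy
        have hi : i = Fin.last n := by
          by_contra hne
          exact h (TZ_tw (π n) φ n k (i, x) hne)
        have hj : j = Fin.last n := by
          by_contra hne
          exact h' (TZ_tw (π n) φ n k (j, y) hne)
        subst hi
        subst hj
        simp only at hxy
        subst hxy
        rfl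
      have hpos : 0 < Nat.card (Fin 3 → (L n → ZMod 257)) := Nat.card_pos
      have hpos' : (0 : ℝ) < Nat.card (Fin 3 → (L n → ZMod 257)) := by exact_mod_cast hpos
      have hn : (0 : ℝ) < (n : ℝ) + 1 := by positivity
      rw [hm]
      generalize Nat.card {z : Fin (n + 1) × (Fin 3 → (L n → ZMod 257)) //
          ((TZ (L n → ZMod 257) n)⁻¹ * uZ (π n) φ n k * TZ (L n → ZMod 257) n) z ≠
            uZ (π n) φ n (φ k) z} = c at hle
      have hle' : (c : ℝ) ≤ Nat.card (Fin 3 → (L n → ZMod 257)) := by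
        exact_mod_cast hle
      rw [div_le_div_iff₀ (by push_cast; positivity) hn]
      push_cast
      nlinarith
    refine squeeze_zero (fun n => by positivity) hb ?_
    exact tendsto_one_div_add_atTop_nhds_zero_nat
  · intro n
    have e2 : ((e n).permCongrHom.toMonoidHom.comp (uZ (π n) φ n)) (eE 0 1 (by decide) 1) =
        (e n).permCongrHom (uZ (π n) φ n (eE 0 1 (by decide) 1)) := rfl
    simp only [e2]
    rw [card_fix]
    refine fix_bound (π n) φ n _ (fun i => ψ^[i] 1) ?_ (hπ n)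
    intro i
    induction i with
    | zero => rfl
    | succ i ih =>
      rw [Function.iterate_succ_apply', Function.iterate_succ_apply']
      exact hφ 0 1 (by decide) _ _ ih

end Pool.Agent.N769.MS
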